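import Mathlib

set_option autoImplicit false

namespace Pool.Agent.Results.MP_12b847_ag.Unbounded
open MvPolynomial Finset

/-- degree at most one in each variable -/
def MultiAffine {n : ℕ} (P : MvPolynomial (Fin n) ℝ) : Prop := ∀ i, P.degreeOf i ≤ 1

/-- the common real zero set of two polynomials -/
def Z {n : ℕ} (P Q : MvPolynomial (Fin n) ℝ) : Set (Fin n → ℝ) := {x | eval x P = 0 ∧ eval x Q = 0}

lemma newton {n : ℕ} (x : Fin n → ℝ) (h : eval x (esymm (Fin n) ℝ 1) = 0) :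
    8 * eval x (esymm (Fin n) ℝ 4) = (∑ i, x i ^ 2) ^ 2 - 2 * ∑ i, x i ^ 4 := by
  have h1 := congrArg (eval x) (mul_esymm_eq_sum (Fin n) ℝ 1)
  have h2 := congrArg (eval x) (mul_esymm_eq_sum (Fin n) ℝ 2)
  have h4 := congrArg (eval x) (mul_esymm_eq_sum (Fin n) ℝ 4)
  rw [show (antidiagonal 1).filter (fun a : ℕ × ℕ => a.1 < 1) = {(0, 1)} by decide] at h1
  rw [show (antidiagonal 2).filter (fun a : ℕ × ℕ => a.1 < 2) = {(0, 2), (1, 1)} by decide,
    sum_insert (by decide)] at h2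
  rw [show (antidiagonal 4).filter (fun a : ℕ × ℕ => a.1 < 4) = {(0, 4), (1, 3), (2, 2), (3, 1)} by decide,
    sum_insert (by decide), sum_insert (by decide), sum_insert (by decide)] at h4
  simp only [sum_singleton, map_mul, map_add, map_pow, map_neg, map_one, map_natCast, esymm_zero,
    psum, map_sum, eval_X, h] at h1 h2 h4
  norm_num at h1 h2 h4
  rw [← h1] at h4
  linear_combination 2 * h4 - (∑ i, x i ^ 2) * h2

lemma deg {n : ℕ} (k : ℕ) : MultiAffine (esymm (Fin n) ℝ k) ∧ (esymm (Fin n) ℝ k).totalDegree ≤ k := by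
  constructor
  · intro i
    refine (degreeOf_sum_le _ _ _).trans (Finset.sup_le fun t _ => ?_)
    refine (degreeOf_prod_le _ _ _).trans ?_
    simp only [degreeOf_X]
    rw [Finset.sum_ite_eq]; split_ifs <;> simp
  · refine (totalDegree_finsetSum _ _).trans (Finset.sup_le fun t ht => ?_)
    refine (totalDegree_finsetProd _ _).trans ?_
    simp [totalDegree_X, (mem_powersetCard.1 ht).2]

theorem result : ∃ d : ℕ, 1 ≤ d ∧ ∀ B : ℕ, ∃ (n : ℕ) (P Q : MvPolynomial (Fin n) ℝ), 1 ≤ n ∧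
    MultiAffine P ∧ MultiAffine Q ∧ P.totalDegree ≤ d ∧ Q.totalDegree ≤ d ∧
    (B : ℕ∞) ≤ ENat.card (ConnectedComponents (Z P Q)) := by
  refine ⟨4, by norm_num, fun B => ⟨B + 4, esymm _ ℝ 1, esymm _ ℝ 4 + 1, by omega, (deg 1).1, fun i => ?_,
    (deg 1).2.trans (by norm_num), ?_, ?_⟩⟩
  · exact (degreeOf_add_le _ _ _).trans (max_le ((deg 4).1 i) (by simp))
  · exact (totalDegree_add _ _).trans (max_le (deg 4).2 (by simp))
  set m : ℝ := B + 3 with hm
  have m3 : 3 ≤ m := by rw [hm]; linarith [Nat.cast_nonneg (α := ℝ) B]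
  have hD : 0 < m * (m - 1) * (m + 1) * (m - 2) := by
    have : 0 < m - 1 := by linarith
    have : 0 < m - 2 := by linarith
    positivity
  set c : ℝ := √√(8 / (m * (m - 1) * (m + 1) * (m - 2))) with hc
  have c0 : 0 < c := Real.sqrt_pos.2 (Real.sqrt_pos.2 (by positivity))
  have c4 : c ^ 4 * (m * (m - 1) * (m + 1) * (m - 2)) = 8 := by
    rw [show c ^ 4 = (c ^ 2) ^ 2 by ring, hc, Real.sq_sqrt (Real.sqrt_nonneg _),
      Real.sq_sqrt (by positivity)]
    exact div_mul_cancel₀ _ hD.ne'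
  let v : Fin (B + 4) → Fin (B + 4) → ℝ := fun i j => if j = i then c * m else -c
  have hs : ∀ i k, ∑ j, v i j ^ k = (c * m) ^ k + m * (-c) ^ k := by
    intro i k
    rw [← Finset.add_sum_erase _ _ (mem_univ i), Finset.sum_congr rfl
      (g := fun _ => (-c) ^ k) fun j hj => by simp [v, (mem_erase.1 hj).1]]
    simp [v, hm]
  have e1 : ∀ i, eval (v i) (esymm (Fin (B + 4)) ℝ 1) = 0 := by
    intro i
    have := hs i 1
    simp only [pow_one] at this
    simp only [esymm_one, map_sum, eval_X, this]; ring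
  have hv : ∀ i, v i ∈ Z (esymm (Fin (B + 4)) ℝ 1) (esymm _ ℝ 4 + 1) := by
    intro i
    refine ⟨e1 i, ?_⟩
    have := newton (v i) (e1 i)
    rw [hs, hs] at this
    simp only [map_add, map_one]
    linear_combination this / 8 - c4 / 8
  let U : Fin (B + 4) → Set (Z (esymm (Fin (B + 4)) ℝ 1) (esymm _ ℝ 4 + 1)) :=
    fun i => {x | ∑ j, x.1 j ^ 2 < 2 * x.1 i ^ 2}
  have hU : ∀ i, IsOpen (U i) := fun i => (isOpen_lt (f := fun x : Fin (B + 4) → ℝ => ∑ j, x j ^ 2)
    (g := fun x => 2 * x i ^ 2) (by fun_prop) (by fun_prop)).preimage continuous_subtype_val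
  have hdis : ∀ i k x, x ∈ U i → x ∈ U k → i = k := by
    intro i k x h1 h2
    by_contra hne
    have : ∑ j ∈ {i, k}, x.1 j ^ 2 ≤ ∑ j, x.1 j ^ 2 :=
      sum_le_sum_of_subset_of_nonneg (subset_univ _) fun _ _ _ => sq_nonneg _
    rw [sum_pair hne] at this
    simp only [U, Set.mem_setOf_eq] at h1 h2
    linarith
  have hcov : ∀ x, ∃ i, x ∈ U i := by
    intro x
    by_contra hx
    push Not at hx
    have h1 := newton x.1 x.2.1
    have h2 := x.2.2
    simp only [map_add, map_one] at h2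
    have h3 : 2 * ∑ j, x.1 j ^ 4 ≤ (∑ j, x.1 j ^ 2) ^ 2 := by
      rw [sq (∑ j, x.1 j ^ 2), mul_sum, mul_sum]
      refine sum_le_sum fun j _ => ?_
      have : 2 * x.1 j ^ 2 ≤ ∑ j, x.1 j ^ 2 := not_lt.1 fun h => hx j h
      nlinarith [sq_nonneg (x.1 j)]
    linarith
  have hcl : ∀ i, IsClopen (U i) := by
    intro i
    refine ⟨⟨?_⟩, hU i⟩
    have : (U i)ᶜ = ⋃ k ∈ {k | k ≠ i}, U k := by
      ext x
      simp only [Set.mem_compl_iff, Set.mem_iUnion, Set.mem_setOf_eq]
      constructor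
      · intro h
        obtain ⟨k, hk⟩ := hcov x
        exact ⟨k, fun e => h (e ▸ hk), hk⟩
      · rintro ⟨k, hk, h⟩ h'
        exact hk (hdis _ _ _ h h')
    rw [this]
    exact isOpen_biUnion fun k _ => hU k
  have hvU : ∀ i, (⟨v i, hv i⟩ : Z _ _) ∈ U i := by
    intro i
    simp only [U, Set.mem_setOf_eq, hs]
    simp only [v, if_true]
    nlinarith [mul_pos (mul_pos (pow_pos c0 2) (show 0 < m by linarith)) (show 0 < m - 1 by linarith)]
  have hinj : Function.Injective fun i => ConnectedComponents.mk (⟨v i, hv i⟩ : Z _ _) := by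
    intro i k h
    have h1 := ConnectedComponents.coe_eq_coe'.1 h
    exact hdis _ _ _ (hvU i) ((hcl k).connectedComponent_subset (hvU k) h1)
  refine le_trans ?_ (ENat.card_le_card_of_injective hinj)
  simp

end Pool.Agent.Results.MP_12b847_ag.Unbounded
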